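import Pool.Agent.R398.LI.Main

/-! An upper bound on the edge for Euler products over a number field. -/

set_option autoImplicit false
set_option linter.unusedSectionVars false

namespace Pool.Agent.H424.QI

open NumberField IsDedekindDomain Filter Topology
open Pool.Agent.W189.TP (DS norm_term DS_diff extend extend_id DS_real DS_norm_le)
open Pool.Agent.TH861.GL3 (PL qq two_le_qq qq_pos one_lt_qq)
open Pool.Agent.TH949.LT
open Pool.Agent.TH949.UL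
open Pool.Agent.Y725.UG (cut)
open Pool.Agent.R398.LI

/-- a local factor with nonnegative power sums is at most `1` -/
theorem fac_le_one {r : ℕ} {b : Fin r → ℂ} {w : ℝ} (hw : 0 < w) (hb : ∀ i, ‖b i‖ * w < 1)
    (hn : ∀ k : ℕ, ∃ c : ℝ, 0 ≤ c ∧ ∑ i, b i ^ (k + 1) = (c : ℂ)) : ‖∏ i, (1 - b i * (w : ℂ))‖ ≤ 1 := by
  have hlt : ∀ i, ‖b i * (w : ℂ)‖ < 1 := by
    intro i
    rw [norm_mul, Complex.norm_real, Real.norm_of_nonneg hw.le]
    exact hb i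
  have hne : ∀ i, 1 - b i * (w : ℂ) ≠ 0 := by
    intro i h0
    have h1 : b i * (w : ℂ) = 1 := (sub_eq_zero.1 h0).symm
    have h2 := hlt i
    rw [h1, norm_one] at h2
    exact lt_irrefl _ h2
  have e1 : ∏ i, (1 - b i * (w : ℂ)) = Complex.exp (∑ i, Complex.log (1 - b i * (w : ℂ))) := by
    rw [Complex.exp_sum]
    exact Finset.prod_congr rfl fun i _ => (Complex.exp_log (hne i)).symm
  have h1 : HasSum (fun k : ℕ => ∑ i, (b i * (w : ℂ)) ^ k / (k : ℂ)) (∑ i, -Complex.log (1 - b i * (w : ℂ))) :=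
    hasSum_sum fun i _ => Complex.hasSum_taylorSeries_neg_log (hlt i)
  have h2 : 0 ≤ (∑ i, -Complex.log (1 - b i * (w : ℂ))).re := by
    have h3 := (Complex.hasSum_re h1)
    refine h3.nonneg fun k => ?_
    rcases k with _ | k
    · simp
    · obtain ⟨c, hc0, hc⟩ := hn k
      have e2 : ∑ i, (b i * (w : ℂ)) ^ (k + 1) / ((k + 1 : ℕ) : ℂ) = ((c * w ^ (k + 1) / ((k + 1 : ℕ) : ℝ) : ℝ) : ℂ) := by
        push_cast
        rw [← hc, Finset.sum_mul, Finset.sum_div]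
        refine Finset.sum_congr rfl fun i _ => ?_
        rw [mul_pow]
      rw [e2, Complex.ofReal_re]
      positivity
  rw [e1, Complex.norm_exp]
  refine Real.exp_le_one_iff.2 ?_
  rw [Finset.sum_neg_distrib, Complex.neg_re] at h2
  linarith

section

variable {K : Type} [Field K] [NumberField K] {S : Finset (HeightOneSpectrum (𝓞 K))} {r : ℕ} {B : ℝ}
  {t : PL S × ℕ → ℝ} {β : HeightOneSpectrum (𝓞 K) → Fin r → ℂ} {T : Finset (HeightOneSpectrum (𝓞 K) × Fin r)}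

theorem split_T (h : LocG B t β T) (s : ℂ) :
    ∏ v ∈ S, ∏ i, (1 - β v i * ((qq v : ℕ) : ℂ) ^ (-s)) =
      (∏ v ∈ S, ∏ i, (1 - cut β T v i * ((qq v : ℕ) : ℂ) ^ (-s))) *
        ∏ x ∈ T, (1 - β x.1 x.2 * ((qq x.1 : ℕ) : ℂ) ^ (-s)) := by
  classical
  rw [← Finset.prod_product' S Finset.univ (fun v i => 1 - β v i * ((qq v : ℕ) : ℂ) ^ (-s)),
    ← Finset.prod_product' S Finset.univ (fun v i => 1 - cut β T v i * ((qq v : ℕ) : ℂ) ^ (-s))]
  have hsub : T ⊆ S ×ˢ Finset.univ := fun x hx => Finset.mem_product.2 ⟨(h.removed x hx).1, Finset.mem_univ _⟩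
  have h4 : ∏ x ∈ T, (1 - β x.1 x.2 * ((qq x.1 : ℕ) : ℂ) ^ (-s)) =
      ∏ x ∈ S ×ˢ Finset.univ, if x ∈ T then (1 - β x.1 x.2 * ((qq x.1 : ℕ) : ℂ) ^ (-s)) else 1 := by
    rw [Finset.prod_ite_mem, Finset.inter_eq_right.2 hsub]
  rw [h4, ← Finset.prod_mul_distrib]
  refine Finset.prod_congr rfl fun x _ => ?_
  obtain ⟨v, i⟩ := x
  unfold cut
  by_cases hT : (v, i) ∈ T
  · rw [if_pos hT, if_pos hT]
    simp
  · rw [if_neg hT, if_neg hT]
    simp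

theorem norm_qs (v : HeightOneSpectrum (𝓞 K)) (s : ℂ) : ‖((qq v : ℕ) : ℂ) ^ (-s)‖ = (qq v : ℝ) ^ (-s.re) := by
  rw [Complex.norm_natCast_cpow_of_pos (by have := two_le_qq v; omega), Complex.neg_re]

theorem T_lower (h : LocG B t β T) {s : ℂ} (hs : 5 / 2 ≤ s.re) :
    (∏ x ∈ T, (qq x.1 : ℝ))⁻¹ ≤ ‖∏ x ∈ T, (1 - β x.1 x.2 * ((qq x.1 : ℕ) : ℂ) ^ (-s))‖ := by
  rw [norm_prod, ← Finset.prod_inv_distrib]
  refine Finset.prod_le_prod (fun x _ => by have := qq_pos x.1; positivity) fun x hx => ?_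
  have h1 : ‖β x.1 x.2 * ((qq x.1 : ℕ) : ℂ) ^ (-s)‖ ≤ 1 / 2 := by
    rw [norm_mul, (h.removed x hx).2, one_mul, norm_qs]
    have h2 : (2 : ℝ) ≤ (qq x.1 : ℝ) := by exact_mod_cast two_le_qq x.1
    calc (qq x.1 : ℝ) ^ (-s.re) ≤ (qq x.1 : ℝ) ^ (-1 : ℝ) :=
          Real.rpow_le_rpow_of_exponent_le (by linarith) (by linarith)
      _ = (qq x.1 : ℝ)⁻¹ := Real.rpow_neg_one _
      _ ≤ 1 / 2 := by
          rw [one_div]
          exact inv_anti₀ (by norm_num) h2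
  have h2 : (2 : ℝ) ≤ (qq x.1 : ℝ) := by exact_mod_cast two_le_qq x.1
  have h3 : ((qq x.1 : ℝ))⁻¹ ≤ 1 / 2 := by
    rw [one_div]
    exact inv_anti₀ (by norm_num) h2
  have h4 := norm_sub_norm_le (1 : ℂ) (β x.1 x.2 * ((qq x.1 : ℕ) : ℂ) ^ (-s))
  rw [norm_one] at h4
  linarith

theorem T_upper (h : LocG B t β T) {s : ℂ} (hs : 1 < s.re) :
    ‖∏ x ∈ T, (1 - β x.1 x.2 * ((qq x.1 : ℕ) : ℂ) ^ (-s))‖ ≤ ∏ x ∈ T, (qq x.1 : ℝ) := by
  rw [norm_prod]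
  refine Finset.prod_le_prod (fun x _ => norm_nonneg _) fun x hx => ?_
  have h2 : (2 : ℝ) ≤ (qq x.1 : ℝ) := by exact_mod_cast two_le_qq x.1
  have h1 : ‖β x.1 x.2 * ((qq x.1 : ℕ) : ℂ) ^ (-s)‖ ≤ 1 := by
    rw [norm_mul, (h.removed x hx).2, one_mul, norm_qs]
    exact Real.rpow_le_one_of_one_le_of_nonpos (by linarith) (by linarith)
  have h4 := norm_sub_le (1 : ℂ) (β x.1 x.2 * ((qq x.1 : ℕ) : ℂ) ^ (-s))
  rw [norm_one] at h4
  linarith

theorem S_upper (h : LocG B t β T) {σ : ℝ} (hs : 1 < σ) :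
    ‖∏ v ∈ S, ∏ i, (1 - cut β T v i * ((qq v : ℕ) : ℂ) ^ (-(σ : ℂ)))‖ ≤ 1 := by
  rw [norm_prod]
  refine Finset.prod_le_one (fun v _ => norm_nonneg _) fun v hv => ?_
  have hq := one_lt_qq v
  have e : ((qq v : ℕ) : ℂ) ^ (-(σ : ℂ)) = (((qq v : ℝ) ^ (-σ) : ℝ) : ℂ) := by
    rw [Complex.ofReal_cpow (by positivity)]
    push_cast
    rfl
  rw [e]
  refine fac_le_one (Real.rpow_pos_of_pos (qq_pos v) _) (fun i => ?_) (h.nonneg v hv)
  have h1 := cut_bound h v hv i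
  calc ‖cut β T v i‖ * (qq v : ℝ) ^ (-σ) < (qq v : ℝ) * (qq v : ℝ) ^ (-σ) :=
        mul_lt_mul_of_pos_right h1 (Real.rpow_pos_of_pos (qq_pos v) _)
    _ = (qq v : ℝ) ^ (1 - σ) := by
        rw [sub_eq_add_neg, Real.rpow_add (qq_pos v), Real.rpow_one]
    _ ≤ 1 := Real.rpow_le_one_of_one_le_of_nonpos hq.le (by linarith)

end

/-- **The upper bound.** -/
theorem upper (K : Type) [Field K] [NumberField K] (r N : ℕ) (B : ℝ) : ∃ A0 : ℝ, 1 ≤ A0 ∧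
    ∀ (S : Finset (HeightOneSpectrum (𝓞 K))) (t : PL S × ℕ → ℝ) (β : HeightOneSpectrum (𝓞 K) → Fin r → ℂ)
      (T : Finset (HeightOneSpectrum (𝓞 K) × Fin r)) (κ : Fin N → ℂ) (Q : ℝ) (G : ℂ → ℂ),
      LocG B t β T → LData N κ Q G →
      (∀ s : ℂ, 1 < s.re → G s * ∏ v ∈ S, ∏ j, (1 - β v j * ((qq v : ℕ) : ℂ) ^ (-s)) = Complex.exp (logT t s)) →
      ∀ σ : ℝ, 1 < σ → σ ≤ 2 →
        ‖Complex.exp (logT t σ)‖ ≤ A0 * (Q ^ 2 * PK κ * ∏ x ∈ T, (qq x.1 : ℝ)) ^ 3 := by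
  have hW := WV_nonneg (K := K)
  set M0 : ℝ := Real.exp ((|B| + r) * WV K) with hM0
  set A1 : ℝ := M0 * 1 * (((3 * N).factorial : ℝ) * Real.exp (5 / 2)) * Real.exp 26 with hA1
  refine ⟨A1 + 1, by have : 0 ≤ A1 := by positivity
                     linarith, fun S t β T κ Q G h hG hE σ hσ1 hσ2 => ?_⟩
  set P : ℝ := ∏ x ∈ T, (qq x.1 : ℝ) with hP
  have hP1 : 1 ≤ P := by
    rw [hP]
    calc (1 : ℝ) = ∏ _x ∈ T, (1 : ℝ) := by simp
      _ ≤ _ := Finset.prod_le_prod (fun _ _ => zero_le_one) fun x _ => (one_lt_qq x.1).le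
  have hP0 : 0 < P := by linarith
  have hQ := hG.one_le
  have hPK := one_le_PK κ
  have hb : ∀ s : ℂ, 5 / 2 ≤ s.re → ‖G s / (fun _ : ℂ => (1 : ℂ)) s‖ ≤ M0 * P := by
    intro s hs
    simp only [div_one]
    have h1 := single h (fun s hs => hE s (by linarith)) hs
    have h2 := congrArg norm h1
    rw [norm_mul] at h2
    have h3 : ‖Complex.exp (DS (dT t (cut β T)) LV s)‖ ≤ M0 := by
      rw [Complex.norm_exp, hM0]
      refine Real.exp_le_exp.2 ((Complex.re_le_norm _).trans ?_)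
      refine (DS_norm_le ?_).trans ?_
      · exact (d_sum (dT_le h) hs).1
      · exact (d_sum (dT_le h) hs).2
    rw [← h2] at h3
    have h4 := T_lower h hs
    have h5 : ‖G s‖ * P⁻¹ ≤ M0 := (mul_le_mul_of_nonneg_left h4 (norm_nonneg _)).trans h3
    rw [← div_eq_mul_inv, div_le_iff₀ hP0] at h5
    exact h5
  have hcr := crude hG den_one (by positivity) hb (z := (σ : ℂ)) (by simp; linarith) (by simp; linarith)
  have e1 := congrArg norm (hE σ (by simpa using hσ1))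
  rw [split_T h, norm_mul, norm_mul] at e1
  rw [← e1]
  have h6 := T_upper h (s := (σ : ℂ)) (by simpa using hσ1)
  have h7 := S_upper h hσ1
  have h8 : |((σ : ℂ)).im| = 0 := by simp
  rw [h8, mul_zero, add_zero] at hcr
  unfold B1 at hcr
  calc ‖G σ‖ * (‖∏ v ∈ S, ∏ i, (1 - cut β T v i * ((qq v : ℕ) : ℂ) ^ (-(σ : ℂ)))‖ *
        ‖∏ x ∈ T, (1 - β x.1 x.2 * ((qq x.1 : ℕ) : ℂ) ^ (-(σ : ℂ)))‖)
      ≤ (Q ^ 6 * PK κ ^ 3 * (M0 * P * 1 * (((3 * N).factorial : ℝ) * Real.exp (5 / 2))) * Real.exp 26) * (1 * P) := by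
        refine mul_le_mul hcr (mul_le_mul h7 h6 (norm_nonneg _) zero_le_one) (by positivity) (by positivity)
    _ = A1 * (Q ^ 6 * PK κ ^ 3 * P ^ 2) := by rw [hA1]; ring
    _ ≤ (A1 + 1) * (Q ^ 6 * PK κ ^ 3 * P ^ 3) := by
        have h9 : P ^ 2 ≤ P ^ 3 := pow_le_pow_right₀ hP1 (by norm_num)
        have h10 : 0 ≤ A1 := by positivity
        have h11 : 0 ≤ Q ^ 6 * PK κ ^ 3 := by positivity
        have h12 : Q ^ 6 * PK κ ^ 3 * P ^ 2 ≤ Q ^ 6 * PK κ ^ 3 * P ^ 3 := mul_le_mul_of_nonneg_left h9 h11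
        have h13 : 0 ≤ Q ^ 6 * PK κ ^ 3 * P ^ 3 := by positivity
        nlinarith
    _ = _ := by ring

end Pool.Agent.H424.QI
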