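import Pool.Agent.H424.QI.Sum
import Pool.Agent.H424.QR.Fin

/-! Bounds towards the Ramanujan conjecture at almost all inert places. -/

set_option autoImplicit false
set_option linter.unusedSectionVars false
set_option linter.unusedVariables false

namespace Pool.Agent.H424.QI

open NumberField IsDedekindDomain Filter Topology
open Pool.Agent.W189.TP (DS norm_term DS_diff extend extend_id DS_real DS_norm_le)
open Pool.Agent.TH861.GL3 (PL qq two_le_qq qq_pos one_lt_qq LL LL_nonneg exp_LL rexp_LL summable_pp summable_qq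
  countable_primes)
open Pool.Agent.TH949.LT
open Pool.Agent.TH949.UL
open Pool.Agent.Y725.UG (cut)
open Pool.Agent.R398.LI
open Pool.Agent.R398.AS (Nm Above Inert two_le_Nm Nm_pos up above_iff IP Nm_up)

/-- the largest exponent `max_i |log_q |a_i||` of the parameters `a` at a place of norm `q` -/
noncomputable def expo {n : ℕ} (q : ℝ) (a : Fin n → ℂ) : ℝ := ⨆ i, |Real.logb q ‖a i‖|

/-- the parameters of a unitary representation -/
def Unitary {n : ℕ} (a : Fin n → ℂ) : Prop :=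
  (∀ i, a i ≠ 0) ∧ ∃ τ : Equiv.Perm (Fin n), ∀ i, a (τ i) = ((starRingEnd ℂ) (a i))⁻¹

theorem expo_spec {n : ℕ} (hn : 0 < n) {q : ℝ} (hq : 1 < q) {a : Fin n → ℂ} (ha : Unitary a) :
    0 ≤ expo q a ∧ ∃ i, ‖a i‖ = q ^ expo q a := by
  have hne : Nonempty (Fin n) := ⟨⟨0, hn⟩⟩
  have hp0 : (0 : ℝ) < q := by linarith
  obtain ⟨i, hi⟩ := exists_eq_ciSup_of_finite (f := fun i => |Real.logb q ‖a i‖|)
  have hθ : expo q a = |Real.logb q ‖a i‖| := hi.symm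
  have hpos : 0 < ‖a i‖ := norm_pos_iff.2 (ha.1 i)
  refine ⟨by rw [hθ]; exact abs_nonneg _, ?_⟩
  rcases le_or_gt 0 (Real.logb q ‖a i‖) with h1 | h1
  · refine ⟨i, ?_⟩
    rw [hθ, abs_of_nonneg h1, Real.rpow_logb hp0 hq.ne' hpos]
  · obtain ⟨τ, hτ⟩ := ha.2
    refine ⟨τ i, ?_⟩
    rw [hτ, norm_inv, Complex.norm_conj, hθ, abs_of_neg h1, Real.rpow_neg hp0.le, Real.rpow_logb hp0 hq.ne' hpos]

variable {K E : Type} [Field K] [NumberField K] [Field E] [NumberField E] [Algebra K E] {n r : ℕ}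
  {S : Finset (HeightOneSpectrum (𝓞 K))}
  {α : HeightOneSpectrum (𝓞 E) → Fin n → ℂ} {β : HeightOneSpectrum (𝓞 K) → Fin (n ^ 4 - 1) → ℂ}
  {T : Finset (HeightOneSpectrum (𝓞 K) × Fin (n ^ 4 - 1))} {κ : Fin ((n ^ 4 - 1) * Module.finrank ℚ K) → ℂ} {Q : ℝ}

/-- the conductor -/
noncomputable def cond (T : Finset (HeightOneSpectrum (𝓞 K) × Fin (n ^ 4 - 1)))
    (κ : Fin ((n ^ 4 - 1) * Module.finrank ℚ K) → ℂ) (Q : ℝ) : ℝ :=
  Q ^ 2 * (∏ j, (1 + ‖κ j‖)) * ∏ x ∈ T, (Nm x.1 : ℝ)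

theorem locA (h2 : Module.finrank K E = 2) (h : AsaiGL S α β T κ Q) :
    LocG (((n : ℝ) ^ 2 + 1) ^ 4 + 1) (tA S α) β T := by
  classical
  refine ⟨fun x => tA_le h2 h x, h.ramified, h.removed, fun v hv k => ?_⟩
  obtain ⟨c, hc, hc2⟩ := h.nonneg v hv k
  refine ⟨c, hc, ?_⟩
  rw [← hc2]
  refine Finset.sum_congr rfl fun i _ => ?_
  unfold cut
  by_cases hi : (v, i) ∈ T
  · rw [if_pos hi, Set.indicator_of_notMem (by simpa using hi), zero_pow (Nat.succ_ne_zero k)]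
  · rw [if_neg hi, Set.indicator_of_mem (by simpa using hi)]

/-- **The sum of all coefficients.** -/
theorem total (K : Type) [Field K] [NumberField K] (n : ℕ) : ∃ A1 : ℝ, 0 ≤ A1 ∧
    ∀ (E : Type) [Field E] [NumberField E] [Algebra K E], Module.finrank K E = 2 →
      ∀ (S : Finset (HeightOneSpectrum (𝓞 K))) (α : HeightOneSpectrum (𝓞 E) → Fin n → ℂ)
        (β : HeightOneSpectrum (𝓞 K) → Fin (n ^ 4 - 1) → ℂ)
        (T : Finset (HeightOneSpectrum (𝓞 K) × Fin (n ^ 4 - 1)))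
        (κ : Fin ((n ^ 4 - 1) * Module.finrank ℚ K) → ℂ) (Q : ℝ), AsaiGL S α β T κ Q →
        1 ≤ cond T κ Q ∧ ∀ σ : ℝ, 1 < σ → σ ≤ 2 →
          (Summable fun x : PL S × ℕ => dz (tA S α) x * Real.exp (-(σ * LL x))) ∧
          ∑' x : PL S × ℕ, dz (tA S α) x * Real.exp (-(σ * LL x)) ≤
            Real.log (1 / (σ - 1)) + 3 * Real.log (cond T κ Q) + A1 := by
  obtain ⟨A0, hA0, hA⟩ := upper K (n ^ 4 - 1) ((n ^ 4 - 1) * Module.finrank ℚ K) (((n : ℝ) ^ 2 + 1) ^ 4 + 1)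
  obtain ⟨C, hC0, hC⟩ := zeta_log K
  refine ⟨Real.log A0 + C, add_nonneg (Real.log_nonneg hA0) hC0, fun E _ _ _ h2 S α β T κ Q h => ?_⟩
  obtain ⟨F, Ξ, ω, hF, hΞ, hω, hgr, hE, hΞF, hfe⟩ := h.adjoint
  have hL : LData ((n ^ 4 - 1) * Module.finrank ℚ K) κ Q F :=
    ⟨h.one_le, h.conj, h.re, hF, hgr, Ξ, ω, hω, hΞ, fun s hs => hΞF s (by linarith), hfe⟩
  have hE' : ∀ s : ℂ, 1 < s.re → F s * ∏ v ∈ S, ∏ j, (1 - β v j * ((qq v : ℕ) : ℂ) ^ (-s)) =
      Complex.exp (logT (tA S α) s) := fun s hs => hE s hs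
  have hcond : Q ^ 2 * PK κ * ∏ x ∈ T, (qq x.1 : ℝ) = cond T κ Q := rfl
  have hcond1 : 1 ≤ cond T κ Q := by
    rw [← hcond]
    have h3 : (1 : ℝ) ≤ Q ^ 2 := one_le_pow₀ h.one_le
    have h4 := one_le_PK κ
    have h5 : (1 : ℝ) ≤ ∏ x ∈ T, (qq x.1 : ℝ) := by
      calc (1 : ℝ) = ∏ _x ∈ T, (1 : ℝ) := by simp
        _ ≤ _ := Finset.prod_le_prod (fun _ _ => zero_le_one) fun x _ => (one_lt_qq x.1).le
    exact one_le_mul_of_one_le_of_one_le (one_le_mul_of_one_le_of_one_le h3 h4) h5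
  refine ⟨hcond1, fun σ hσ1 hσ2 => ?_⟩
  have ht : ∀ x, -1 ≤ tA S α x := fun x => by
    unfold tA
    have := sq_nonneg ‖asaiPw α x.1.1 (x.2 + 1)‖
    linarith
  have hloc := locA h2 h
  have hs := landau_conv hloc.bound ht hF hE' hσ1
  refine ⟨hs, ?_⟩
  have hup := hA S (tA S α) β T κ Q F hloc hL hE' σ hσ1 hσ2
  have hs1 : Summable fun x : PL S × ℕ => d1 x * Real.exp (-(σ * LL x)) :=
    (summable_d1 (S := S) hσ1).congr fun x => by
      rw [abs_of_nonneg (by unfold d1; positivity)]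
  have hst : Summable fun x : PL S × ℕ => tA S α x / ((x.2 : ℝ) + 1) * Real.exp (-(σ * LL x)) := by
    refine (hs.sub hs1).congr fun x => ?_
    unfold dz d1
    rw [add_div]
    ring
  have e1 : logT (tA S α) (σ : ℂ) =
      ((∑' x : PL S × ℕ, tA S α x / ((x.2 : ℝ) + 1) * Real.exp (-(σ * LL x)) : ℝ) : ℂ) := by
    unfold logT
    rw [Complex.ofReal_tsum]
    refine tsum_congr fun x => ?_
    rw [← exp_LL]
    push_cast
    rfl
  rw [e1, Complex.norm_exp, Complex.ofReal_re, hcond] at hup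
  have h6 := Real.log_le_log (Real.exp_pos _) hup
  rw [Real.log_exp, Real.log_mul (by positivity) (by positivity), Real.log_pow] at h6
  have h7 := hC S σ hσ1 hσ2
  have e2 : ∑' x : PL S × ℕ, dz (tA S α) x * Real.exp (-(σ * LL x)) =
      (∑' x : PL S × ℕ, tA S α x / ((x.2 : ℝ) + 1) * Real.exp (-(σ * LL x))) +
        ∑' x : PL S × ℕ, d1 x * Real.exp (-(σ * LL x)) := by
    rw [← hst.tsum_add hs1]
    refine tsum_congr fun x => ?_
    unfold dz d1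
    rw [add_div]
    ring
  rw [e2]
  push_cast at h6
  linarith

/-- the exponent at the place above `v` -/
noncomputable def th (α : HeightOneSpectrum (𝓞 E) → Fin n → ℂ) (v : IP E S) : ℝ :=
  expo (Nm (up v.1 v.2.2) : ℝ) (α (up v.1 v.2.2))

theorem out (v : IP E S) : ∀ u ∈ S, ¬ Above u (up v.1 v.2.2) := by
  intro u hu hc
  have h1 : Above v.1 (up v.1 v.2.2) := (above_iff v.2.2 _).2 rfl
  have e : u = v.1 := HeightOneSpectrum.ext (hc.symm.trans h1)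
  exact v.2.1 (e ▸ hu)

theorem th_nonneg (hn : 0 < n) (hU : ∀ w : HeightOneSpectrum (𝓞 E), (∀ v ∈ S, ¬ Above v w) → Unitary (α w))
    (v : IP E S) : 0 ≤ th α v := by
  have hq : (1 : ℝ) < (Nm (up v.1 v.2.2) : ℝ) := by
    have := two_le_Nm (up v.1 v.2.2)
    exact_mod_cast this
  exact (expo_spec hn hq (hU _ (out v))).1

/-- the local inequality -/
theorem loc (h2 : Module.finrank K E = 2) (hn : n = 2 ∨ n = 3)
    (hU : ∀ w : HeightOneSpectrum (𝓞 E), (∀ v ∈ S, ¬ Above v w) → Unitary (α w)) (v : IP E S) {x : ℝ}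
    (hvx : (Nm v.1 : ℝ) ≤ x) :
    (Nm v.1 : ℝ) ^ (-(1 - 4 * th α v)) ≤
      4 * Real.exp 1 * (dz (tA S α) ((⟨v.1, v.2.1⟩ : PL S), 0) *
        Real.exp (-((1 + 1 / Real.log (3 * x)) * LL ((⟨v.1, v.2.1⟩ : PL S), 0)))) +
      4 * (n : ℝ) ^ 2 * Real.exp 1 * (qq v.1 : ℝ) ^ (-(1 + 1 / Real.log (3 * x))) := by
  have hn0 : 0 < n := by omega
  have hm : n / 2 = 1 := by omega
  have hq2 : (2 : ℝ) ≤ (Nm v.1 : ℝ) := by exact_mod_cast two_le_Nm v.1
  set q : ℝ := (Nm v.1 : ℝ) with hq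
  have hq0 : 0 < q := by linarith
  have hw : (Nm (up v.1 v.2.2) : ℝ) = q ^ 2 := by
    rw [Nm_up h2 v.2.2]
    push_cast
    rfl
  have hqw : (1 : ℝ) < (Nm (up v.1 v.2.2) : ℝ) := by
    rw [hw]
    nlinarith
  obtain ⟨hθ0, i0, hi0⟩ := expo_spec hn0 hqw (hU _ (out v))
  have hth : expo (Nm (up v.1 v.2.2) : ℝ) (α (up v.1 v.2.2)) = th α v := rfl
  rw [hth, hw] at hi0
  set θ : ℝ := th α v with hθ
  have hR : ‖α (up v.1 v.2.2) i0‖ = q ^ (2 * θ) := by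
    rw [hi0, ← Real.rpow_natCast q 2, ← Real.rpow_mul hq0.le]
    norm_num
  set R : ℝ := q ^ (2 * θ) with hRd
  have hR0 : 0 < R := Real.rpow_pos_of_pos hq0 _
  have e1 : q ^ (-(1 - 4 * θ)) = R ^ 2 * q⁻¹ := by
    rw [hRd, ← Real.rpow_natCast (q ^ (2 * θ)) 2, ← Real.rpow_mul hq0.le, ← Real.rpow_neg_one, ← Real.rpow_add hq0]
    congr 1
    push_cast
    ring
  set σ : ℝ := 1 + 1 / Real.log (3 * x) with hσ
  have hlog3 : 0 < Real.log (3 * x) := Real.log_pos (by linarith)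
  have hinv : q⁻¹ ≤ Real.exp 1 * q ^ (-σ) := by
    rw [← Real.rpow_neg_one, Real.rpow_def_of_pos hq0, Real.rpow_def_of_pos hq0, ← Real.exp_add]
    refine Real.exp_le_exp.2 ?_
    have h1 : Real.log q ≤ Real.log (3 * x) := Real.log_le_log hq0 (by linarith)
    have h3 : Real.log q / Real.log (3 * x) ≤ 1 := (div_le_one hlog3).2 h1
    have h4 : Real.log q * -σ = Real.log q * -1 - Real.log q / Real.log (3 * x) := by
      rw [hσ]
      ring
    rw [h4]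
    linarith
  have hqs : 0 < q ^ (-σ) := Real.rpow_pos_of_pos hq0 _
  have e2 : dz (tA S α) ((⟨v.1, v.2.1⟩ : PL S), 0) = ‖∑ i, α (up v.1 v.2.2) i‖ ^ 2 := by
    unfold dz tA
    simp only [Nat.cast_zero, zero_add, div_one]
    rw [asaiPw_inert v.2.2 odd_one]
    unfold pw
    simp
  have e3 : Real.exp (-(σ * LL ((⟨v.1, v.2.1⟩ : PL S), 0))) = q ^ (-σ) := by
    rw [rexp_LL]
    simp only [zero_add, pow_one]
    rfl
  have e4 : (qq v.1 : ℝ) = q := rfl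
  rw [e1, e2, e3, e4]
  have hn1 : (0 : ℝ) ≤ n := Nat.cast_nonneg _
  rcases lt_or_ge R (2 * (n : ℝ)) with hlt | hge
  · have h5 : R ^ 2 ≤ 4 * (n : ℝ) ^ 2 := by nlinarith
    have h6 : R ^ 2 * q⁻¹ ≤ 4 * (n : ℝ) ^ 2 * (Real.exp 1 * q ^ (-σ)) :=
      mul_le_mul h5 hinv (by positivity) (by positivity)
    have h7 : 0 ≤ 4 * Real.exp 1 * (‖∑ i, α (up v.1 v.2.2) i‖ ^ 2 * q ^ (-σ)) := by positivity
    linarith
  · have hn2 : (2 : ℝ) ≤ n := by
      have : 2 ≤ n := by omega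
      exact_mod_cast this
    obtain ⟨k, hk1, hk2, hk3⟩ := Pool.Agent.H424.QR.big_trace (hU _ (out v)).2 (i0 := i0)
      (by rw [hR]; linarith) (by rw [hR, hm]; push_cast; linarith)
    have hk : k = 1 := by omega
    rw [hk, hR, hm, pow_one] at hk3
    simp only [pow_one, Nat.cast_one, mul_one] at hk3
    have h5 : R ^ 2 ≤ 4 * ‖∑ i, α (up v.1 v.2.2) i‖ ^ 2 := by
      have h6 : 0 ≤ R / 2 := by positivity
      nlinarith [norm_nonneg (∑ i, α (up v.1 v.2.2) i)]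
    have h6 : R ^ 2 * q⁻¹ ≤ 4 * ‖∑ i, α (up v.1 v.2.2) i‖ ^ 2 * (Real.exp 1 * q ^ (-σ)) :=
      mul_le_mul h5 hinv (by positivity) (by positivity)
    have h7 : 0 ≤ 4 * (n : ℝ) ^ 2 * Real.exp 1 * q ^ (-σ) := by positivity
    linarith

/-- the weighted sum -/
noncomputable def wsum (α : HeightOneSpectrum (𝓞 E) → Fin n → ℂ) (S : Finset (HeightOneSpectrum (𝓞 K))) (x : ℝ) : ℝ :=
  ∑' v : IP E S, if (Nm v.1 : ℝ) ≤ x then (Nm v.1 : ℝ) ^ (-(1 - 4 * th α v)) else 0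

/-- **The weighted sum over the inert places.** -/
theorem main (K : Type) [Field K] [NumberField K] {n : ℕ} (hn : n = 2 ∨ n = 3) : ∃ A : ℝ, 0 < A ∧
    ∀ (E : Type) [Field E] [NumberField E] [Algebra K E], Module.finrank K E = 2 →
      ∀ (S : Finset (HeightOneSpectrum (𝓞 K))) (α : HeightOneSpectrum (𝓞 E) → Fin n → ℂ)
        (β : HeightOneSpectrum (𝓞 K) → Fin (n ^ 4 - 1) → ℂ)
        (T : Finset (HeightOneSpectrum (𝓞 K) × Fin (n ^ 4 - 1)))
        (κ : Fin ((n ^ 4 - 1) * Module.finrank ℚ K) → ℂ) (Q : ℝ), AsaiGL S α β T κ Q →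
        (∀ w : HeightOneSpectrum (𝓞 E), (∀ v ∈ S, ¬ Above v w) → Unitary (α w)) →
        1 ≤ cond T κ Q ∧ ∀ x : ℝ, 2 ≤ x →
          (Summable fun v : IP E S => if (Nm v.1 : ℝ) ≤ x then (Nm v.1 : ℝ) ^ (-(1 - 4 * th α v)) else 0) ∧
          wsum α S x ≤ A * (Real.log (2 * cond T κ Q) + Real.log (Real.log (3 * x))) := by
  obtain ⟨A1, hA10, hA1⟩ := total K n
  obtain ⟨C, hC0, hC⟩ := zeta_bound K
  set D1 : ℝ := 4 * Real.exp 1 with hD1
  set D2 : ℝ := 4 * (n : ℝ) ^ 2 * Real.exp 1 with hD2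
  have hD10 : 0 < D1 := by positivity
  have hD20 : 0 ≤ D2 := by positivity
  refine ⟨D1 * (4 + 2 * A1) + D2 * (1 + 2 * C), by positivity, fun E _ _ _ h2 S α β T κ Q h hU => ?_⟩
  obtain ⟨hcond, htot⟩ := hA1 E h2 S α β T κ Q h
  refine ⟨hcond, fun x hx => ?_⟩
  have hlog6 : 1 < Real.log (3 * x) := by
    rw [Real.lt_log_iff_exp_lt (by linarith)]
    have := Real.exp_one_lt_d9
    linarith
  have hLL : 0 ≤ Real.log (Real.log (3 * x)) := Real.log_nonneg hlog6.le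
  set σ : ℝ := 1 + 1 / Real.log (3 * x) with hσ
  have hσ1 : 1 < σ := by
    have : 0 < 1 / Real.log (3 * x) := by positivity
    linarith
  have hσ2 : σ ≤ 2 := by
    have : 1 / Real.log (3 * x) ≤ 1 := by
      rw [div_le_one (by linarith)]
      exact hlog6.le
    linarith
  obtain ⟨hs, hle⟩ := htot σ hσ1 hσ2
  have e0 : 1 / (σ - 1) = Real.log (3 * x) := by
    have : Real.log (3 * x) ≠ 0 := by linarith
    rw [hσ]
    field_simp
    ring
  rw [e0] at hle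
  have hz := hC σ hσ1 hσ2
  rw [e0] at hz
  have hsz : Summable fun v : HeightOneSpectrum (𝓞 K) => (qq v : ℝ) ^ (-σ) :=
    Pool.Agent.H921R2.TatePole.nm_summable (K := K) hσ1
  have hdz : ∀ y : PL S × ℕ, 0 ≤ dz (tA S α) y * Real.exp (-(σ * LL y)) := by
    intro y
    refine mul_nonneg ?_ (Real.exp_pos _).le
    unfold dz tA
    have := sq_nonneg ‖asaiPw α y.1.1 (y.2 + 1)‖
    apply div_nonneg <;> [linarith; positivity]
  set j1 : IP E S → PL S × ℕ := fun v => ((⟨v.1, v.2.1⟩ : PL S), 0) with hj1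
  have hj1i : Function.Injective j1 := by
    intro a b hab
    have h3 := (Prod.mk.inj hab).1
    exact Subtype.ext (Subtype.mk.inj h3)
  set j2 : IP E S → HeightOneSpectrum (𝓞 K) := fun v => v.1 with hj2
  have hj2i : Function.Injective j2 := Subtype.val_injective
  have hs1 : Summable fun v : IP E S => dz (tA S α) (j1 v) * Real.exp (-(σ * LL (j1 v))) := hs.comp_injective hj1i
  have hs2 : Summable fun v : IP E S => (qq (j2 v) : ℝ) ^ (-σ) := hsz.comp_injective hj2i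
  have hl1 : ∑' v : IP E S, dz (tA S α) (j1 v) * Real.exp (-(σ * LL (j1 v))) ≤
      ∑' y : PL S × ℕ, dz (tA S α) y * Real.exp (-(σ * LL y)) :=
    tsum_comp_le_tsum_of_inj hs hdz hj1i
  have hl2 : ∑' v : IP E S, (qq (j2 v) : ℝ) ^ (-σ) ≤ ∑' v : HeightOneSpectrum (𝓞 K), (qq v : ℝ) ^ (-σ) :=
    tsum_comp_le_tsum_of_inj hsz (fun v => by positivity) hj2i
  have hterm : ∀ v : IP E S, (if (Nm v.1 : ℝ) ≤ x then (Nm v.1 : ℝ) ^ (-(1 - 4 * th α v)) else 0) ≤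
      D1 * (dz (tA S α) (j1 v) * Real.exp (-(σ * LL (j1 v)))) + D2 * (qq (j2 v) : ℝ) ^ (-σ) := by
    intro v
    split_ifs with hv
    · exact loc h2 hn hU v hv
    · have := hdz (j1 v)
      positivity
  have hsr : Summable fun v : IP E S =>
      D1 * (dz (tA S α) (j1 v) * Real.exp (-(σ * LL (j1 v)))) + D2 * (qq (j2 v) : ℝ) ^ (-σ) :=
    (hs1.mul_left D1).add (hs2.mul_left D2)
  have hsl : Summable fun v : IP E S => if (Nm v.1 : ℝ) ≤ x then (Nm v.1 : ℝ) ^ (-(1 - 4 * th α v)) else 0 :=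
    Summable.of_nonneg_of_le (fun v => by split_ifs <;> positivity) hterm hsr
  refine ⟨hsl, ?_⟩
  unfold wsum
  refine (hsl.tsum_le_tsum hterm hsr).trans ?_
  rw [(hs1.mul_left D1).tsum_add (hs2.mul_left D2), tsum_mul_left, tsum_mul_left]
  have hl2' : (1 : ℝ) / 2 ≤ Real.log 2 := by
    have := Real.log_two_gt_d9
    linarith
  have hlQ : Real.log (2 * cond T κ Q) = Real.log 2 + Real.log (cond T κ Q) :=
    Real.log_mul (by norm_num) (by linarith)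
  have hlQ0 : 0 ≤ Real.log (cond T κ Q) := Real.log_nonneg hcond
  have e4 : D1 * (∑' v : IP E S, dz (tA S α) (j1 v) * Real.exp (-(σ * LL (j1 v)))) ≤
      D1 * ((4 + 2 * A1) * (Real.log (2 * cond T κ Q) + Real.log (Real.log (3 * x)))) := by
    refine mul_le_mul_of_nonneg_left (hl1.trans (hle.trans ?_)) hD10.le
    rw [hlQ]
    nlinarith
  have e5 : D2 * ∑' v : IP E S, (qq (j2 v) : ℝ) ^ (-σ) ≤
      D2 * ((1 + 2 * C) * (Real.log (2 * cond T κ Q) + Real.log (Real.log (3 * x)))) := by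
    refine mul_le_mul_of_nonneg_left (hl2.trans (hz.trans ?_)) hD20
    rw [hlQ]
    nlinarith
  calc _ ≤ D1 * ((4 + 2 * A1) * (Real.log (2 * cond T κ Q) + Real.log (Real.log (3 * x)))) +
        D2 * ((1 + 2 * C) * (Real.log (2 * cond T κ Q) + Real.log (Real.log (3 * x)))) := add_le_add e4 e5
    _ = _ := by ring

/-- the number of exceptional inert places -/
theorem count {α : HeightOneSpectrum (𝓞 E) → Fin n → ℂ} {ϑ x W : ℝ} (hϑ : ϑ ≤ 1 / 4) (hx : 2 ≤ x)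
    (hs : Summable fun v : IP E S => if (Nm v.1 : ℝ) ≤ x then (Nm v.1 : ℝ) ^ (-(1 - 4 * th α v)) else 0)
    (hS : wsum α S x ≤ W) :
    (({v : IP E S | (Nm v.1 : ℝ) ≤ x ∧ ϑ ≤ th α v}.ncard : ℕ) : ℝ) ≤ x ^ (1 - 4 * ϑ) * W := by
  classical
  have hx0 : 0 < x := by linarith
  have hβ : 0 ≤ 1 - 4 * ϑ := by linarith
  have h2 : 0 < x ^ (1 - 4 * ϑ) := Real.rpow_pos_of_pos hx0 _
  have hW : 0 ≤ W := by
    refine le_trans ?_ hS
    unfold wsum
    exact tsum_nonneg fun v => by split_ifs <;> positivity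
  by_cases hfin : {v : IP E S | (Nm v.1 : ℝ) ≤ x ∧ ϑ ≤ th α v}.Finite
  · rw [Set.ncard_eq_toFinset_card _ hfin]
    have h1 : (hfin.toFinset.card : ℝ) * x ^ (-(1 - 4 * ϑ)) ≤ W := by
      refine le_trans ?_ hS
      rw [← nsmul_eq_mul, ← Finset.sum_const]
      refine (Finset.sum_le_sum (g := fun v : IP E S =>
        if (Nm v.1 : ℝ) ≤ x then (Nm v.1 : ℝ) ^ (-(1 - 4 * th α v)) else 0) fun v hv => ?_).trans
        (hs.sum_le_tsum _ fun v _ => by split_ifs <;> positivity)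
      rw [Set.Finite.mem_toFinset] at hv
      have hp1 : (1 : ℝ) < (Nm v.1 : ℝ) := by
        have := two_le_Nm v.1
        exact_mod_cast this
      have h2 : (Nm v.1 : ℝ) ≤ x := hv.1
      have h3 : ϑ ≤ th α v := hv.2
      rw [if_pos h2]
      calc x ^ (-(1 - 4 * ϑ)) ≤ (Nm v.1 : ℝ) ^ (-(1 - 4 * ϑ)) :=
            Real.rpow_le_rpow_of_nonpos (by linarith) h2 (by linarith)
        _ ≤ _ := Real.rpow_le_rpow_of_exponent_le hp1.le (by linarith)
    rw [Real.rpow_neg hx0.le, ← div_eq_mul_inv, div_le_iff₀ h2] at h1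
    linarith
  · rw [Set.Infinite.ncard hfin]
    push_cast
    positivity

/-- **The final form.** -/
theorem final (K : Type) [Field K] [NumberField K] {n : ℕ} (hn : n = 2 ∨ n = 3) :
    (∃ A : ℝ, 0 < A ∧ ∀ (E : Type) [Field E] [NumberField E] [Algebra K E], Module.finrank K E = 2 →
      ∀ (S : Finset (HeightOneSpectrum (𝓞 K))) (α : HeightOneSpectrum (𝓞 E) → Fin n → ℂ)
        (β : HeightOneSpectrum (𝓞 K) → Fin (n ^ 4 - 1) → ℂ)
        (T : Finset (HeightOneSpectrum (𝓞 K) × Fin (n ^ 4 - 1)))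
        (κ : Fin ((n ^ 4 - 1) * Module.finrank ℚ K) → ℂ) (Q : ℝ), AsaiGL S α β T κ Q →
        (∀ w : HeightOneSpectrum (𝓞 E), (∀ v ∈ S, ¬ Above v w) → Unitary (α w)) → ∀ x : ℝ, 2 ≤ x →
          (∑' v : IP E S, if (Nm v.1 : ℝ) ≤ x then (Nm v.1 : ℝ) ^ (-(1 - 4 * th α v)) else 0) ≤
            A * (Real.log (2 * cond T κ Q) + Real.log (Real.log (3 * x)))) ∧
    ∀ ϑ γ ε : ℝ, 0 < ϑ → ϑ ≤ 1 / 4 → 1 / (4 * ϑ) < γ → 0 < ε → ∃ B : ℝ, 0 < B ∧
      ∀ (E : Type) [Field E] [NumberField E] [Algebra K E], Module.finrank K E = 2 →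
      ∀ (S : Finset (HeightOneSpectrum (𝓞 K))) (α : HeightOneSpectrum (𝓞 E) → Fin n → ℂ)
        (β : HeightOneSpectrum (𝓞 K) → Fin (n ^ 4 - 1) → ℂ)
        (T : Finset (HeightOneSpectrum (𝓞 K) × Fin (n ^ 4 - 1)))
        (κ : Fin ((n ^ 4 - 1) * Module.finrank ℚ K) → ℂ) (Q : ℝ), AsaiGL S α β T κ Q →
        (∀ w : HeightOneSpectrum (𝓞 E), (∀ v ∈ S, ¬ Above v w) → Unitary (α w)) →
        ∀ x : ℝ, B * Real.log (2 * cond T κ Q) ^ γ ≤ x →
          (({v : IP E S | (Nm v.1 : ℝ) ≤ x ∧ ϑ ≤ th α v}.ncard : ℕ) : ℝ) ≤ ε * (x / Real.log x) := by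
  obtain ⟨A, hA, h⟩ := main K hn
  refine ⟨⟨A, hA, fun E _ _ _ h2 S α β T κ Q h3 h4 x hx => ?_⟩, fun ϑ γ ε hϑ0 hϑ hγ hε => ?_⟩
  · exact ((h E h2 S α β T κ Q h3 h4).2 x hx).2
  · obtain ⟨B, hB, hB'⟩ := Pool.Agent.H424.QR.growth hA (β := 1 - 4 * ϑ) (by linarith)
      (κ := γ) (by
        have : 1 - (1 - 4 * ϑ) = 4 * ϑ := by ring
        rw [this]
        exact hγ) hε
    refine ⟨B, hB, fun E _ _ _ h2 S α β T κ Q h3 h4 x hx => ?_⟩
    obtain ⟨hc, h5⟩ := h E h2 S α β T κ Q h3 h4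
    obtain ⟨hx2, hx3⟩ := hB' (Real.log (2 * cond T κ Q)) x (Real.log_le_log (by norm_num) (by linarith)) hx
    obtain ⟨h6, h7⟩ := h5 x hx2
    exact (count hϑ hx2 h6 h7).trans hx3

end Pool.Agent.H424.QI
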