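import Pool.Agent.H424.QI.Core

/-! Convergence up to `Re s = 1` by Landau's lemma, and the bound for the sum with nonnegative coefficients. -/

set_option autoImplicit false
set_option linter.unusedSectionVars false

namespace Pool.Agent.H424.QI

open NumberField IsDedekindDomain Filter Topology
open Pool.Agent.W189.TP (DS norm_term DS_diff extend extend_id DS_real DS_norm_le)
open Pool.Agent.TH861.GL3 (PL qq two_le_qq qq_pos one_lt_qq LL LL_nonneg exp_LL rexp_LL summable_pp summable_qq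
  countable_primes)
open Pool.Agent.TH949.LT
open Pool.Agent.TH949.UL
open Pool.Agent.Y725.UG (cut)
open Pool.Agent.R398.LI

section

variable {K : Type} [Field K] [NumberField K] {S : Finset (HeightOneSpectrum (𝓞 K))} {r : ℕ} {B : ℝ}
  {t : PL S × ℕ → ℝ} {β : HeightOneSpectrum (𝓞 K) → Fin r → ℂ} {T : Finset (HeightOneSpectrum (𝓞 K) × Fin r)}

theorem summable_one {u : ℝ} (hu : 1 < u) : Summable fun x : PL S × ℕ => Real.exp (-(u * LL x)) := by
  have h := summable_pp (S := S) (fun _ => 1) (fun _ => zero_le_one) (by linarith : 0 < u)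
    ((summable_qq (S := S) hu).congr fun p => (one_mul _).symm)
  simpa using h

/-- the coefficients with the zeta function -/
noncomputable def dz (t : PL S × ℕ → ℝ) (x : PL S × ℕ) : ℝ := (t x + 1) / ((x.2 : ℝ) + 1)

/-- the coefficients of the zeta function -/
noncomputable def d1 (x : PL S × ℕ) : ℝ := 1 / ((x.2 : ℝ) + 1)

theorem d1_le (x : PL S × ℕ) : |d1 x| ≤ 1 := by
  unfold d1
  rw [abs_of_nonneg (by positivity), div_le_one (by positivity)]
  have : (0 : ℝ) ≤ x.2 := Nat.cast_nonneg _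
  linarith

theorem summable_d1 {u : ℝ} (hu : 1 < u) : Summable fun x : PL S × ℕ => |d1 x| * Real.exp (-(u * LL x)) :=
  Summable.of_nonneg_of_le (fun x => by positivity)
    (fun x => mul_le_of_le_one_left (Real.exp_pos _).le (d1_le x)) (summable_one hu)

theorem exp_LL' (x : PL S × ℕ) : Real.exp (LL x) = (qq x.1.1 : ℝ) ^ (x.2 + 1) := by
  have := rexp_LL x (-1)
  rw [neg_neg, neg_one_mul, neg_neg, Real.rpow_one] at this
  exact this

theorem t_div_le (x : PL S × ℕ) (y : ℝ) : |y / ((x.2 : ℝ) + 1)| ≤ |y| := by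
  have hk : (1 : ℝ) ≤ (x.2 : ℝ) + 1 := by
    have : (0 : ℝ) ≤ x.2 := Nat.cast_nonneg _
    linarith
  rw [abs_div, abs_of_pos (by linarith : (0 : ℝ) < (x.2 : ℝ) + 1)]
  exact div_le_self (abs_nonneg _) hk

theorem summable_td (hb : ∀ x, |t x| ≤ B * (qq x.1.1 : ℝ) ^ (x.2 + 1)) {u : ℝ} (hu : 2 < u) :
    Summable fun x : PL S × ℕ => |t x / ((x.2 : ℝ) + 1)| * Real.exp (-(u * LL x)) := by
  refine Summable.of_nonneg_of_le (fun x => by positivity) (fun x => ?_)
    ((summable_one (S := S) (u := u - 1) (by linarith)).mul_left B)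
  calc |t x / ((x.2 : ℝ) + 1)| * Real.exp (-(u * LL x)) ≤ B * Real.exp (LL x) * Real.exp (-(u * LL x)) := by
        refine mul_le_mul_of_nonneg_right ((t_div_le x _).trans ?_) (Real.exp_pos _).le
        rw [exp_LL']
        exact hb x
    _ = B * (Real.exp (LL x) * Real.exp (-(u * LL x))) := by ring
    _ = B * Real.exp (-((u - 1) * LL x)) := by
        rw [← Real.exp_add]
        congr 2
        ring

/-- **Landau**: convergence for `σ > 1`. -/
theorem landau_conv (hb : ∀ x, |t x| ≤ B * (qq x.1.1 : ℝ) ^ (x.2 + 1)) (ht : ∀ x, -1 ≤ t x) {G : ℂ → ℂ}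
    (hG : Differentiable ℂ G)
    (hE : ∀ s : ℂ, 1 < s.re → G s * ∏ v ∈ S, ∏ j, (1 - β v j * ((qq v : ℕ) : ℂ) ^ (-s)) = Complex.exp (logT t s))
    {σ : ℝ} (hσ : 1 < σ) : Summable fun x : PL S × ℕ => dz t x * Real.exp (-(σ * LL x)) := by
  have := countable_primes K
  have hdz : ∀ x, 0 ≤ dz t x := by
    intro x
    unfold dz
    have := ht x
    apply div_nonneg <;> [linarith; positivity]
  set d' : PL S × ℕ → ℝ := fun x => dz t x * Real.exp (-(1 * LL x)) with hd'
  have hd'0 : ∀ x, 0 ≤ d' x := fun x => mul_nonneg (hdz x) (Real.exp_pos _).le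
  have hshift : ∀ (u : ℝ) (x : PL S × ℕ), |d' x| * Real.exp (-(u * LL x)) = dz t x * Real.exp (-((u + 1) * LL x)) := by
    intro u x
    rw [abs_of_nonneg (hd'0 x), hd']
    simp only
    rw [mul_assoc, ← Real.exp_add]
    congr 2
    ring
  have hdzle : ∀ x, dz t x ≤ |t x / ((x.2 : ℝ) + 1)| + |d1 x| := by
    intro x
    unfold dz d1
    rw [add_div]
    exact add_le_add (le_abs_self _) (le_abs_self _)
  have h1 : ∀ u, 1 < u → Summable fun x => |d' x| * Real.exp (-(u * LL x)) := by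
    intro u hu
    have h2 := (summable_td hb (u := u + 1) (by linarith)).add (summable_d1 (S := S) (u := u + 1) (by linarith))
    refine Summable.of_nonneg_of_le (fun x => by positivity) (fun x => ?_) h2
    rw [hshift, ← add_mul]
    exact mul_le_mul_of_nonneg_right (hdzle x) (Real.exp_pos _).le
  have hneg : ∀ u : ℝ, 0 < u → Summable fun x => |min (d' x) 0| * Real.exp (-(u * LL x)) := by
    intro u _
    have : (fun x => |min (d' x) 0| * Real.exp (-(u * LL x))) = fun _ => 0 := by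
      funext x
      rw [min_eq_right (hd'0 x), abs_zero, zero_mul]
    rw [this]
    exact summable_zero
  have hone : DifferentiableOn ℂ (DS (d1 (S := S)) LL) {s | 1 < s.re} :=
    DS_diff LL_nonneg fun u hu => summable_d1 hu
  set U : ℂ → ℂ := fun s => G (s + 1) * (∏ v ∈ S, ∏ j, (1 - β v j * ((qq v : ℕ) : ℂ) ^ (-(s + 1)))) *
    Complex.exp (DS (d1 (S := S)) LL (s + 1)) with hU
  have hUd : DifferentiableOn ℂ U {s | 0 < s.re} := by
    refine DifferentiableOn.mul (DifferentiableOn.mul ?_ ?_) ?_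
    · exact (hG.comp (differentiable_id.add_const 1)).differentiableOn
    · refine Differentiable.differentiableOn ?_
      refine Differentiable.fun_finsetProd fun v _ => Differentiable.fun_finsetProd fun j _ => ?_
      have hq : ((qq v : ℕ) : ℂ) ≠ 0 := by
        have := two_le_qq v
        exact_mod_cast (by omega : qq v ≠ 0)
      intro s
      refine DifferentiableAt.const_sub (DifferentiableAt.const_mul ?_ _) _
      exact ((differentiableAt_id.add_const 1).neg).const_cpow (Or.inl hq)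
    · refine DifferentiableOn.cexp ?_
      refine hone.comp ((differentiable_id.add_const 1).differentiableOn) fun s hs => ?_
      have hs' : 0 < s.re := hs
      show 1 < (s + 1).re
      rw [Complex.add_re, Complex.one_re]
      linarith
  have hid : ∀ s : ℂ, 1 < s.re → Complex.exp (DS d' LL s) * (fun _ : ℂ => (1 : ℂ)) s = U s := by
    intro s hs
    have hs1 : (s + 1).re = s.re + 1 := by simp
    have e1 : DS d' LL s = logT t (s + 1) + DS (d1 (S := S)) LL (s + 1) := by
      have hs2 : Summable fun x : PL S × ℕ =>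
          ((t x / ((x.2 : ℝ) + 1) : ℝ) : ℂ) * Complex.exp (-((s + 1) * LL x)) := by
        refine Summable.of_norm ((summable_td hb (u := (s + 1).re) (by rw [hs1]; linarith)).congr fun x => ?_)
        rw [norm_term (fun x : PL S × ℕ => t x / ((x.2 : ℝ) + 1)) LL (s + 1) x]
      have hs3 : Summable fun x : PL S × ℕ => ((d1 x : ℝ) : ℂ) * Complex.exp (-((s + 1) * LL x)) := by
        refine Summable.of_norm ((summable_d1 (S := S) (u := (s + 1).re) (by rw [hs1]; linarith)).congr fun x => ?_)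
        rw [norm_term (fun x : PL S × ℕ => d1 x) LL (s + 1) x]
      have e2 : logT t (s + 1) = ∑' x : PL S × ℕ,
          ((t x / ((x.2 : ℝ) + 1) : ℝ) : ℂ) * Complex.exp (-((s + 1) * LL x)) := by
        unfold logT
        refine tsum_congr fun x => ?_
        rw [exp_LL]
      rw [e2]
      unfold DS
      rw [← hs2.tsum_add hs3]
      refine tsum_congr fun x => ?_
      rw [hd']
      simp only
      rw [← add_mul, ← Complex.ofReal_add, Complex.ofReal_mul, Complex.ofReal_exp, mul_assoc, ← Complex.exp_add]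
      have e3 : dz t x = t x / ((x.2 : ℝ) + 1) + d1 x := by
        unfold dz d1
        rw [add_div]
      rw [e3]
      congr 2
      push_cast
      ring
    simp only [mul_one]
    rw [e1, Complex.exp_add, hU]
    simp only
    rw [hE (s + 1) (by rw [hs1]; linarith)]
  have h2 := extend (L := LL) LL_nonneg (s₁ := 0) h1 hneg hUd ((differentiable_const (1 : ℂ)).differentiableOn)
    (fun _ _ => one_ne_zero) hid (σ - 1) (by linarith)
  refine h2.congr fun x => ?_
  rw [hshift]
  congr 3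
  ring

end

/-- the zeta function of `K` near `1` -/
theorem zeta_bound (K : Type) [Field K] [NumberField K] : ∃ C : ℝ, 0 ≤ C ∧ ∀ σ : ℝ, 1 < σ → σ ≤ 2 →
    ∑' v : HeightOneSpectrum (𝓞 K), (qq v : ℝ) ^ (-σ) ≤ Real.log (1 / (σ - 1)) + C := by
  obtain ⟨C, hC⟩ := Pool.Agent.H921R2.TatePole.prime_sum_bdd (K := K)
  rw [eventually_nhdsWithin_iff, Metric.eventually_nhds_iff] at hC
  obtain ⟨η, hη, hC⟩ := hC
  set x0 : ℝ := 1 + η / 2 with hx0
  have hsum : ∀ σ : ℝ, 1 < σ → Summable fun v : HeightOneSpectrum (𝓞 K) => (qq v : ℝ) ^ (-σ) := fun σ hσ =>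
    Pool.Agent.H921R2.TatePole.nm_summable (K := K) hσ
  set C1 : ℝ := ∑' v : HeightOneSpectrum (𝓞 K), (qq v : ℝ) ^ (-x0) with hC1
  have hC10 : 0 ≤ C1 := tsum_nonneg fun v => by positivity
  refine ⟨|C| + C1, by positivity, fun σ h1 h2 => ?_⟩
  have hlog : 0 ≤ Real.log (1 / (σ - 1)) := by
    refine Real.log_nonneg ?_
    rw [le_div_iff₀ (by linarith)]
    linarith
  rcases lt_or_ge σ x0 with h3 | h3
  · have h4 := hC (y := σ) (by
      rw [Real.dist_eq, abs_of_pos (by linarith)]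
      linarith) h1
    have h5 := (abs_le.1 h4).2
    have h7 : ∑' v : HeightOneSpectrum (𝓞 K), (qq v : ℝ) ^ (-σ) - Real.log (1 / (σ - 1)) ≤ C := h5
    have := le_abs_self C
    linarith
  · have h4 : ∑' v : HeightOneSpectrum (𝓞 K), (qq v : ℝ) ^ (-σ) ≤ C1 := by
      refine (hsum σ h1).tsum_le_tsum (fun v => ?_) (hsum x0 (by linarith))
      exact Real.rpow_le_rpow_of_exponent_le (one_lt_qq v).le (by linarith)
    have := abs_nonneg C
    linarith

/-- the logarithm of the partial zeta function -/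
theorem zeta_log (K : Type) [Field K] [NumberField K] : ∃ C : ℝ, 0 ≤ C ∧
    ∀ (S : Finset (HeightOneSpectrum (𝓞 K))) (σ : ℝ), 1 < σ → σ ≤ 2 →
    ∑' x : PL S × ℕ, d1 x * Real.exp (-(σ * LL x)) ≤ Real.log (1 / (σ - 1)) + C := by
  obtain ⟨C, hC0, hC⟩ := zeta_bound K
  have hsum : ∀ σ : ℝ, 1 < σ → Summable fun v : HeightOneSpectrum (𝓞 K) => (qq v : ℝ) ^ (-σ) := fun σ hσ =>
    Pool.Agent.H921R2.TatePole.nm_summable (K := K) hσ
  set C2 : ℝ := ∑' v : HeightOneSpectrum (𝓞 K), (qq v : ℝ) ^ (-(2 : ℝ)) with hC2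
  have hC20 : 0 ≤ C2 := tsum_nonneg fun v => by positivity
  refine ⟨C + C2, by positivity, fun S σ h1 h2 => ?_⟩
  have hd : ∀ x : PL S × ℕ, 0 ≤ d1 x := fun x => by unfold d1; positivity
  have hs : Summable fun x : PL S × ℕ => d1 x * Real.exp (-(σ * LL x)) :=
    (summable_d1 (S := S) h1).congr fun x => by rw [abs_of_nonneg (hd x)]
  rw [hs.tsum_prod]
  have hin : ∀ v : PL S, ∑' k : ℕ, d1 (v, k) * Real.exp (-(σ * LL (v, k))) = -Real.log (1 - (qq v.1 : ℝ) ^ (-σ)) := by
    intro v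
    have hu0 : 0 < (qq v.1 : ℝ) ^ (-σ) := Real.rpow_pos_of_pos (qq_pos v.1) _
    have hu1 : (qq v.1 : ℝ) ^ (-σ) < 1 := Real.rpow_lt_one_of_one_lt_of_neg (one_lt_qq v.1) (by linarith)
    have h3 := Real.hasSum_pow_div_log_of_abs_lt_one (x := (qq v.1 : ℝ) ^ (-σ)) (by rw [abs_of_pos hu0]; exact hu1)
    rw [← h3.tsum_eq]
    refine tsum_congr fun k => ?_
    unfold d1
    rw [rexp_LL]
    simp only
    ring
  have hle : ∀ v : PL S, ∑' k : ℕ, d1 (v, k) * Real.exp (-(σ * LL (v, k))) ≤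
      (qq v.1 : ℝ) ^ (-σ) + (qq v.1 : ℝ) ^ (-(2 : ℝ)) := by
    intro v
    rw [hin]
    have hu0 : 0 < (qq v.1 : ℝ) ^ (-σ) := Real.rpow_pos_of_pos (qq_pos v.1) _
    have hu1 : (qq v.1 : ℝ) ^ (-σ) ≤ 1 / 2 := Pool.Agent.H921R2.TatePole.nm_rpow_le_half v.1 h1.le
    refine (Pool.Agent.H921R2.TatePole.neg_log_one_sub_le hu0.le hu1).trans ?_
    have h3 : ((qq v.1 : ℝ) ^ (-σ)) ^ 2 ≤ (qq v.1 : ℝ) ^ (-(2 : ℝ)) := by
      rw [← Real.rpow_natCast, ← Real.rpow_mul (qq_pos v.1).le]
      refine Real.rpow_le_rpow_of_exponent_le (one_lt_qq v.1).le ?_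
      push_cast
      linarith
    linarith
  have hsS1 : Summable fun v : PL S => (qq v.1 : ℝ) ^ (-σ) := summable_qq h1
  have hsS2 : Summable fun v : PL S => (qq v.1 : ℝ) ^ (-(2 : ℝ)) := summable_qq (by norm_num)
  have hsub : ∀ f : HeightOneSpectrum (𝓞 K) → ℝ, (∀ v, 0 ≤ f v) → Summable f → ∑' v : PL S, f v.1 ≤ ∑' v, f v := by
    intro f hf hsf
    exact Summable.tsum_subtype_le f {v | v ∉ S} hf hsf
  refine (hs.prod.tsum_le_tsum hle (hsS1.add hsS2)).trans ?_
  rw [hsS1.tsum_add hsS2]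
  have h3 := hsub (fun v => (qq v : ℝ) ^ (-σ)) (fun v => by positivity) (hsum σ h1)
  have h4 := hsub (fun v => (qq v : ℝ) ^ (-(2 : ℝ))) (fun v => by positivity) (hsum 2 (by norm_num))
  have h5 := hC σ h1 h2
  linarith

end Pool.Agent.H424.QI
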